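import Pool.Agent.V11109.PureExt.OK

/-!
# Simplicity, and a countably determined pure state
-/

set_option autoImplicit false
set_option linter.unusedSectionVars false
set_option linter.style.haveILetI false

open scoped ComplexOrder InnerProductSpace Topology

namespace Pool.Agent.V11109.PureExt

open Pool.Agent.V11109.Fock Filter

universe u

section Gen

variable {K : Type*} {R : Type*} [Ring R] [StarRing R] {s : K → R} (hs : IsCuntzFamily s)
include hs

lemma gen_left {j k : K} (h : j ≠ k) (v w : List K) :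
    star (s j) * (mon s (k :: v) w * s j) = 0 := by
  rw [mon, sw_cons]
  calc star (s j) * (s k * sw s v * star (sw s w) * s j)
      = (star (s j) * s k) * (sw s v * star (sw s w) * s j) := by simp only [mul_assoc]
    _ = 0 := by rw [hs.orth j k h, zero_mul]

lemma gen_right {j k : K} (h : j ≠ k) (w : List K) :
    star (s j) * (mon s [] (k :: w) * s j) = 0 := by
  rw [mon, sw_cons, sw_nil, star_mul]
  calc star (s j) * (1 * (star (sw s w) * star (s k)) * s j)
      = star (s j) * (star (sw s w) * (star (s k) * s j)) := by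
        rw [one_mul]; simp only [mul_assoc]
    _ = 0 := by rw [hs.orth k j (fun h' => h h'.symm), mul_zero, mul_zero]

lemma gen_nil (j : K) : star (s j) * (mon s [] [] * s j) = 1 := by
  rw [mon_nil, one_mul, hs.iso]

lemma gen_idem (u : List K) : mon s u u * mon s u u = mon s u u := by
  rw [mon]
  calc sw s u * star (sw s u) * (sw s u * star (sw s u))
      = sw s u * (star (sw s u) * sw s u) * star (sw s u) := by
        simp only [mul_assoc]
    _ = _ := by rw [star_sw_self hs, mul_one]

lemma star_sw_le (v : List K) : ∀ u : List K, v.length ≤ u.length →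
    star (sw s v) * sw s u = 0 ∨
      ∃ t, u = v ++ t ∧ star (sw s v) * sw s u = sw s t := by
  induction v with
  | nil => intro u _; exact Or.inr ⟨u, rfl, by simp⟩
  | cons a v ih =>
    intro u hu
    cases u with
    | nil => simp at hu
    | cons b u =>
      by_cases h : a = b
      · subst h
        rw [star_sw_cons_self hs]
        rcases ih u (by simpa using hu) with h1 | ⟨t, rfl, h1⟩
        · exact Or.inl h1
        · exact Or.inr ⟨t, rfl, h1⟩
      · exact Or.inl (star_sw_cons_ne hs h v u)

omit hs in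
/-- the word `k 0, ..., k (n-1)` -/
def word (k : ℕ → K) (n : ℕ) : List K := (List.range n).map k

omit hs in
lemma length_word (k : ℕ → K) (n : ℕ) : (word k n).length = n := by simp [word]

omit hs in
lemma word_add (k : ℕ → K) (n m : ℕ) : ∃ t, word k (n + m) = word k n ++ t := by
  refine ⟨((List.range m).map (n + ·)).map k, ?_⟩
  rw [word, word, List.range_add, List.map_append]

lemma star_sw_word (k : ℕ → K) (v : List K) {n : ℕ} (hn : v.length < n) :
    star (sw s v) * sw s (word k n) = 0 ∨
      ∃ t, word k n = v ++ (k v.length :: t) ∧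
        star (sw s v) * sw s (word k n) = sw s (k v.length :: t) := by
  rcases star_sw_le hs v (word k n) (by rw [length_word]; exact hn.le) with h | ⟨t, h1, h2⟩
  · exact Or.inl h
  · right
    cases t with
    | nil =>
      exfalso
      have := congrArg List.length h1
      rw [length_word] at this
      simp at this
      omega
    | cons a t =>
      have h3 : a = k v.length := by
        have h4 : (word k n)[v.length]? = (v ++ a :: t)[v.length]? := by rw [h1]
        simp [word, hn] at h4
        exact h4.symm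
      subst h3
      exact ⟨t, h1, h2⟩

lemma gen_compress {k : ℕ → K} (hk : Function.Injective k) (v w : List K) :
    ∃ (n : ℕ), mon s (word k n) (word k n) * mon s v w * mon s (word k n) (word k n)
        = mon s (word k n) (word k n) ∨
      mon s (word k n) (word k n) * mon s v w * mon s (word k n) (word k n) = 0 := by
  refine ⟨max v.length w.length + 1, ?_⟩
  set n := max v.length w.length + 1 with hn
  have hv : v.length < n := by omega
  have hw : w.length < n := by omega
  have h0 : mon s (word k n) (word k n) * mon s v w * mon s (word k n) (word k n)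
      = sw s (word k n) *
      (star (star (sw s v) * sw s (word k n)) * (star (sw s w) * sw s (word k n))) *
      star (sw s (word k n)) := by
    rw [mon, mon, star_mul, star_star]
    simp only [mul_assoc]
  rcases star_sw_word hs k v hv with h1 | ⟨t, ht, h1⟩
  · right
    rw [h0, h1, star_zero, zero_mul, mul_zero, zero_mul]
  · rcases star_sw_word hs k w hw with h2 | ⟨t', ht', h2⟩
    · right
      rw [h0, h2, mul_zero, mul_zero, zero_mul]
    · by_cases hl : v.length = w.length
      · left
        have hvw : v = w := by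
          rw [ht] at ht'
          exact (List.append_inj ht' hl).1
        subst hvw
        rw [h0, h1, star_sw_self hs, mul_one]
        rfl
      · right
        rw [h0, h1, h2, star_sw_cons_ne hs (fun h => hl (hk h)), mul_zero, zero_mul]

end Gen

section GenC

variable {A : Type*} [CStarAlgebra A]

lemma norm_iso_le {s : A} (hs : star s * s = 1) : ‖s‖ ≤ 1 := by
  rcases subsingleton_or_nontrivial A with h | h
  · rw [Subsingleton.elim s 0, norm_zero]; norm_num
  · have h1 := CStarRing.norm_star_mul_self (x := s)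
    rw [hs, CStarRing.norm_one] at h1
    nlinarith [norm_nonneg s]

lemma compress_norm {s : A} (hs : star s * s = 1) (x : A) : ‖star s * (x * s)‖ ≤ ‖x‖ := by
  have h1 := norm_iso_le hs
  calc ‖star s * (x * s)‖ ≤ ‖star s‖ * (‖x‖ * ‖s‖) :=
        (norm_mul_le _ _).trans (by gcongr; exact norm_mul_le _ _)
    _ ≤ 1 * (‖x‖ * 1) := by
        rw [norm_star]; gcongr
    _ = ‖x‖ := by ring

lemma compress_bound {s : A} (hs : star s * s = 1) (φ : A →L[ℂ] ℂ) (hφ : ‖φ‖ = 1) (y p : A)
    (c : ℝ) (hφy : φ y = c) (hp : star s * (p * s) = φ p • (1 : A)) (hyp : ‖y - p‖ < c / 4) :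
    ‖star s * (y * s) - (c : ℂ) • (1 : A)‖ ≤ c / 2 := by
  have h4 : star s * (y * s) - (c : ℂ) • (1 : A)
      = star s * ((y - p) * s) + (φ (p - y)) • (1 : A) := by
    have h5 : star s * ((y - p) * s) = star s * (y * s) - φ p • (1 : A) := by
      rw [← hp]; noncomm_ring
    have h6 : φ (p - y) = φ p - c := by rw [map_sub, hφy]
    rw [h5, h6, sub_smul]
    abel
  have h7 : ‖φ (p - y)‖ ≤ c / 4 := by
    calc ‖φ (p - y)‖ ≤ ‖φ‖ * ‖p - y‖ := φ.le_opNorm _
      _ = ‖y - p‖ := by rw [hφ, one_mul, norm_sub_rev]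
      _ ≤ c / 4 := hyp.le
  have h8 : ‖(1 : A)‖ ≤ 1 := norm_iso_le (by simp)
  rw [h4]
  calc ‖star s * ((y - p) * s) + (φ (p - y)) • (1 : A)‖
      ≤ ‖star s * ((y - p) * s)‖ + ‖(φ (p - y)) • (1 : A)‖ := norm_add_le _ _
    _ ≤ ‖y - p‖ + ‖φ (p - y)‖ * 1 := by
        rw [norm_smul]
        gcongr
        exact compress_norm hs _
    _ ≤ c / 4 + c / 4 * 1 := by gcongr
    _ = c / 2 := by ring

lemma ideal_top_of_close (I : TwoSidedIdeal A) {z : A} (hz : z ∈ I) {c : ℝ} (hc : 0 < c)
    (h : ‖z - (c : ℂ) • (1 : A)‖ ≤ c / 2) : I = ⊤ := by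
  obtain ⟨t, ht⟩ : ∃ t : A, t = ((c : ℂ)⁻¹ • 1) * z := ⟨_, rfl⟩
  have htI : t ∈ I := by rw [ht]; exact I.mul_mem_left _ _ hz
  have hc0 : (c : ℂ) ≠ 0 := by exact_mod_cast hc.ne'
  have h1 : ‖1 - t‖ < 1 := by
    have h2 : 1 - t = -((c : ℂ)⁻¹ • (z - (c : ℂ) • (1 : A))) := by
      rw [ht, smul_mul_assoc, one_mul, smul_sub, smul_smul, inv_mul_cancel₀ hc0, one_smul]
      abel
    rw [h2, norm_neg, norm_smul, norm_inv, Complex.norm_real, Real.norm_eq_abs, abs_of_pos hc]
    calc c⁻¹ * ‖z - (c : ℂ) • (1 : A)‖ ≤ c⁻¹ * (c / 2) := by gcongr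
      _ = 1 / 2 := by field_simp
      _ < 1 := by norm_num
  have h3 : ((Units.oneSub (1 - t) h1 : Aˣ) : A) = t := by
    rw [Units.val_oneSub]; abel
  rw [← TwoSidedIdeal.one_mem_iff]
  have h4 : (((Units.oneSub (1 - t) h1)⁻¹ : Aˣ) : A) * t = (1 : A) := by
    calc (((Units.oneSub (1 - t) h1)⁻¹ : Aˣ) : A) * t
        = (((Units.oneSub (1 - t) h1)⁻¹ : Aˣ) : A) * ((Units.oneSub (1 - t) h1 : Aˣ) : A) :=
          congrArg (fun y => (((Units.oneSub (1 - t) h1)⁻¹ : Aˣ) : A) * y) h3.symm
      _ = 1 := Units.inv_mul _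
  rw [← h4]
  exact I.mul_mem_left _ _ htI

end GenC

section Simple

variable {K : Type u}

lemma finite_ne_lin {E F : Type u} [AddCommGroup E] [Module ℂ E] [AddCommGroup F] [Module ℂ F]
    (f : K → (E →ₗ[ℂ] F)) (g : E →ₗ[ℂ] F) (T : Set E)
    (hT : ∀ x ∈ T, {j : K | f j x ≠ g x}.Finite) {p : E} (hp : p ∈ Submodule.span ℂ T) :
    {j : K | f j p ≠ g p}.Finite := by
  induction hp using Submodule.span_induction with
  | mem p hp => exact hT p hp
  | zero => simp
  | add p q _ _ h1 h2 =>
    refine (h1.union h2).subset ?_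
    intro j hj
    by_contra hcon
    simp only [Set.mem_union, Set.mem_ofPred_eq, not_or, not_not] at hcon
    apply hj
    rw [map_add, map_add, hcon.1, hcon.2]
  | smul c p _ h1 =>
    refine h1.subset ?_
    intro j hj
    by_contra hcon
    simp only [Set.mem_ofPred_eq, not_not] at hcon
    apply hj
    rw [map_smul, map_smul, hcon]

/-- compression by a generator -/
noncomputable def compr (j : K) : O K →ₗ[ℂ] O K :=
  (LinearMap.mulLeft ℂ (star (S j))).comp (LinearMap.mulRight ℂ (S j))

lemma compr_apply (j : K) (x : O K) : compr j x = star (S j) * (x * S j) := rfl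

/-- the vacuum state with values in the scalars -/
noncomputable def vacOne (K : Type u) : O K →ₗ[ℂ] O K :=
  (vac K).toLinearMap.smulRight 1

lemma vacOne_apply (x : O K) : vacOne K x = vac K x • 1 := rfl

lemma compr_mon (v w : List K) :
    {j : K | compr j (mon S v w) ≠ vacOne K (mon S v w)}.Finite := by
  cases v with
  | cons k v =>
    refine (Set.finite_singleton k).subset ?_
    intro j hj
    by_contra hne
    apply hj
    rw [vacOne_apply, vac_mon_left, zero_smul, compr_apply]
    exact gen_left S_cuntz hne v w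
  | nil =>
    cases w with
    | cons k w =>
      refine (Set.finite_singleton k).subset ?_
      intro j hj
      by_contra hne
      apply hj
      rw [vacOne_apply, vac_mon_right, zero_smul, compr_apply]
      exact gen_right S_cuntz hne w
    | nil =>
      refine Set.finite_empty.subset ?_
      intro j hj
      apply hj
      rw [compr_apply, gen_nil S_cuntz, mon_nil, vacOne_apply, vac_one, one_smul]

lemma compr_finite {p : O K} (hp : p ∈ monSpan (S : K → O K)) :
    {j : K | compr j p ≠ vacOne K p}.Finite := by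
  apply finite_ne_lin compr (vacOne K) _ _ hp
  rintro _ ⟨v, w, rfl⟩
  exact compr_mon v w

lemma exists_delta_ne {x : O K} (hx : x ≠ 0) :
    ∃ w : List K, (x : HH (List K) →L[ℂ] HH (List K)) (delta w) ≠ 0 := by
  by_contra hcon
  push Not at hcon
  apply hx
  apply Subtype.ext
  exact ext_delta (fun w => by rw [hcon w]; rfl)

lemma vac_sw (x : O K) (w : List K) : vac K (star (x * sw S w) * (x * sw S w))
    = ((‖(x : HH (List K) →L[ℂ] HH (List K)) (delta w)‖ ^ 2 : ℝ) : ℂ) := by
  rw [vac, vs_star_mul]
  have h2 : ((x * sw S w : O K) : HH (List K) →L[ℂ] HH (List K)) (delta [])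
      = (x : HH (List K) →L[ℂ] HH (List K)) (delta w) := by
    rw [← sw_cr_nil w, ← coe_sw]; rfl
  rw [h2, inner_self_eq_norm_sq_to_K]
  push_cast
  rfl

/-- For every nonzero `x` there is a `b` such that `b^* x^* x b` is close to a positive scalar. -/
lemma exists_compress [Infinite K] {x : O K} (hx : x ≠ 0) :
    ∃ (a b : O K) (c : ℝ), 0 < c ∧ ‖a * x * b - (c : ℂ) • (1 : O K)‖ ≤ c / 2 := by
  obtain ⟨w, hw⟩ := exists_delta_ne hx
  have hvy := vac_sw x w
  generalize hy : star (x * sw S w) * (x * sw S w) = y at hvy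
  generalize hc : ‖(x : HH (List K) →L[ℂ] HH (List K)) (delta w)‖ ^ 2 = c at hvy
  have hcpos : 0 < c := by
    have : 0 < ‖(x : HH (List K) →L[ℂ] HH (List K)) (delta w)‖ := norm_pos_iff.mpr hw
    rw [← hc]
    positivity
  obtain ⟨p, hp, hyp⟩ := Metric.mem_closure_iff.mp (dense_mon y) (c / 4) (by linarith)
  rw [dist_eq_norm] at hyp
  obtain ⟨j, hj⟩ : ∃ j : K, j ∉ {j : K | compr j p ≠ vacOne K p} :=
    (compr_finite hp).exists_notMem
  simp only [Set.mem_ofPred_eq, not_not] at hj
  refine ⟨star (S j) * star (x * sw S w), sw S w * S j, c, hcpos, ?_⟩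
  have h3 : star (S j) * star (x * sw S w) * x * (sw S w * S j) = star (S j) * (y * S j) := by
    rw [← hy]
    simp only [mul_assoc]
  rw [h3]
  exact compress_bound (S_cuntz.iso j) (vac K) vac_mem.2 y p c hvy hj hyp

lemma ideal_eq_top [Infinite K] (I : TwoSidedIdeal (O K)) {x : O K} (hx : x ∈ I)
    (hx0 : x ≠ 0) : I = ⊤ := by
  obtain ⟨a, b, c, hc, hb⟩ := exists_compress hx0
  exact ideal_top_of_close I (I.mul_mem_right _ _ (I.mul_mem_left _ _ hx)) hc hb

theorem simple_O [Infinite K] : IsSimpleRing (O K) := by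
  refine ⟨{ exists_pair_ne := ⟨⊥, ⊤, fun h => ?_⟩, eq_bot_or_eq_top := fun I => ?_ }⟩
  · have : (1 : O K) ∈ (⊥ : TwoSidedIdeal (O K)) := by rw [h]; exact TwoSidedIdeal.mem_top _
    rw [TwoSidedIdeal.mem_bot] at this
    have h1 := norm_one_O (K := K)
    rw [this, norm_zero] at h1
    exact zero_ne_one h1
  · by_cases h : ∃ x ∈ I, x ≠ 0
    · obtain ⟨x, hx, hx0⟩ := h
      exact Or.inr (ideal_eq_top I hx hx0)
    · push Not at h
      left
      rw [eq_bot_iff]
      intro x hx
      rw [TwoSidedIdeal.mem_bot]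
      exact h x hx

end Simple

section Second

variable {K : Type u}

/-- the projections along the word -/
noncomputable def qq (k : ℕ → K) (n : ℕ) : O K := mon S (word k n) (word k n)

lemma qq_star (k : ℕ → K) (n : ℕ) : star (qq k n) = qq k n := star_mon _ _ _

lemma qq_idem (k : ℕ → K) (n : ℕ) : qq k n * qq k n = qq k n := gen_idem S_cuntz _

lemma qq_compress {k : ℕ → K} (hk : Function.Injective k) (v w : List K) :
    ∃ (n : ℕ) (c : ℂ), qq k n * mon S v w * qq k n = c • qq k n := by
  obtain ⟨n, h | h⟩ := gen_compress (S_cuntz (K := K)) hk v w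
  · exact ⟨n, 1, by rw [one_smul]; exact h⟩
  · exact ⟨n, 0, by rw [zero_smul]; exact h⟩

lemma eq_of_qq {k : ℕ → K} (hk : Function.Injective k) {g g' : O K →L[ℂ] ℂ}
    (hg : g ∈ States (O K)) (hg' : g' ∈ States (O K)) (h : ∀ n, g (qq k n) = 1)
    (h' : ∀ n, g' (qq k n) = 1) : g = g' := by
  letI := CStarAlgebra.spectralOrder (O K)
  haveI := CStarAlgebra.spectralOrderedRing (O K)
  apply ext_mon
  intro v w
  obtain ⟨n, c, hc⟩ := qq_compress hk v w
  rw [eq_compress hg.1 (qq_star k n) (qq_idem k n) (by rw [h, state_one hg]) (mon S v w),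
    eq_compress hg'.1 (qq_star k n) (qq_idem k n) (by rw [h', state_one hg']) (mon S v w),
    hc, map_smul, map_smul, h, h']

lemma vs_qq (k : ℕ → K) (n m : ℕ) : vs (delta (word k (n + m))) (qq k n) = 1 := by
  obtain ⟨t, ht⟩ := word_add k n m
  have h0 : qq k n = star (star (sw S (word k n))) * star (sw S (word k n)) := by
    rw [star_star]; rfl
  have h1 : star (sw (cr K) (word k n)) (delta (word k (n + m))) = delta t := by
    rw [ht, ← sw_cr_nil (word k n ++ t), ← mul_apply_eq_comp, star_sw_prefix (cr_cuntz K),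
      sw_cr_nil]
  rw [h0, vs_star_mul, coe_star_sw, h1, inner_self_eq_norm_sq_to_K, norm_delta]
  simp

/-- there is a state with value one at all the projections -/
lemma exists_second (k : ℕ → K) : ∃ g ∈ States (O K), ∀ n, g (qq k n) = 1 := by
  obtain ⟨g, hg, hlim⟩ := exists_ultralimit (fun m => vs (delta (word k m)))
    (fun m => (vs_mem (norm_delta _)).2.le)
  have hconst : ∀ (x : O K) (z : ℂ), (∀ᶠ m in atTop, vs (delta (word k m)) x = z) → g x = z := by
    intro x z h
    have h1 : ∀ᶠ m in (hyperfilter ℕ : Filter ℕ), vs (delta (word k m)) x = z :=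
      Nat.hyperfilter_le_atTop h
    exact tendsto_nhds_unique (hlim x)
      ((tendsto_const_nhds (x := z)).congr' (h1.mono fun m hm => hm.symm))
  have h1 : g 1 = 1 := hconst 1 1 (Eventually.of_forall fun m => vs_one (norm_delta _))
  refine ⟨g, ⟨fun x => ?_, le_antisymm hg ?_⟩, fun n => hconst _ 1 ?_⟩
  · have hcl : IsClosed {z : ℂ | 0 ≤ z} := isClosed_Ici
    exact hcl.mem_of_tendsto (hlim (star x * x)) (Eventually.of_forall fun m => vs_pos _ x)
  · have h2 := g.le_opNorm (1 : O K)
    rw [h1, norm_one, norm_one_O, mul_one] at h2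
    exact h2
  · rw [eventually_atTop]
    refine ⟨n, fun m hm => ?_⟩
    obtain ⟨d, rfl⟩ := Nat.exists_eq_add_of_le hm
    exact vs_qq k n d

lemma qq_le_one {g : O K →L[ℂ] ℂ} (hg : g ∈ States (O K)) (k : ℕ → K) (n : ℕ) :
    (g (qq k n)).re ≤ 1 := by
  letI := CStarAlgebra.spectralOrder (O K)
  haveI := CStarAlgebra.spectralOrderedRing (O K)
  have h1 : star (1 - qq k n) * (1 - qq k n) = 1 - qq k n := by
    rw [star_sub, star_one, qq_star, mul_sub, sub_mul, sub_mul, qq_idem]; simp
  have h2 := hg.1 (1 - qq k n)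
  rw [h1, map_sub, state_one hg] at h2
  have h3 := (Complex.le_def.mp h2).1
  simp at h3
  exact h3

lemma second_pure {k : ℕ → K} (hk : Function.Injective k) {g : O K →L[ℂ] ℂ}
    (hg : g ∈ States (O K)) (h : ∀ n, g (qq k n) = 1) : g ∈ PureStates (O K) := by
  rw [PureStates, mem_extremePoints_iff_left]
  refine ⟨hg, fun g₁ h₁ g₂ h₂ hs => ?_⟩
  obtain ⟨a, b, ha, hb, hab, hgab⟩ := openSegment_re hs
  apply eq_of_qq hk h₁ hg _ h
  intro n
  have h3 : 0 ≤ g₁ (qq k n) := by
    have := h₁.1 (qq k n)
    rwa [qq_star, qq_idem] at this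
  have h4 := qq_le_one h₁ k n
  have h5 := qq_le_one h₂ k n
  have h6 := hgab (qq k n)
  rw [h] at h6
  generalize g₁ (qq k n) = z₁ at h3 h4 h6 ⊢
  generalize g₂ (qq k n) = z₂ at h5 h6
  have h7 : a * z₁.re + b * z₂.re = 1 := by
    have := congrArg Complex.re h6
    simpa using this.symm
  have h8 : z₁.re = 1 := by nlinarith
  apply Complex.ext
  · simpa using h8
  · simpa using (Complex.le_def.mp h3).2.symm

lemma second_cd {k : ℕ → K} (hk : Function.Injective k) {g : O K →L[ℂ] ℂ}
    (hg : g ∈ States (O K)) (h : ∀ n, g (qq k n) = 1) : CountablyDetermined g := by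
  refine ⟨Set.range (qq k), Set.countable_range _, fun g' hg' hgg' => ?_⟩
  apply eq_of_qq hk hg' hg _ h
  intro n
  rw [hgg' _ ⟨n, rfl⟩, h]

end Second

end Pool.Agent.V11109.PureExt
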