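import Mathlib

/-!
# Isometries on `ℓ²(X)` given by injective maps; Cuntz families; the full Fock space
-/

set_option autoImplicit false
set_option linter.unusedSectionVars false

open scoped ComplexOrder InnerProductSpace

namespace Pool.Agent.V11109.Fock

universe u

/-- the Hilbert space `ℓ²(X)` -/
noncomputable abbrev HH (X : Type u) := lp (fun _ : X => ℂ) 2

section Basis

variable {X : Type u}

open Classical in
/-- the basis vectors of `ℓ²(X)` -/
noncomputable def delta (x : X) : HH X := lp.single 2 x (1 : ℂ)

lemma inner_delta_left (x : X) (v : HH X) : ⟪delta x, v⟫_ℂ = v x := by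
  classical
  rw [delta, lp.inner_single_left]
  simp

lemma inner_delta_right (x : X) (v : HH X) : ⟪v, delta x⟫_ℂ = star (v x) := by
  rw [← inner_conj_symm, inner_delta_left]
  rfl

open Classical in
lemma delta_apply (x y : X) : (delta x : HH X) y = if y = x then 1 else 0 := by
  rw [delta, lp.single_apply]
  by_cases h : y = x
  · subst h; simp
  · simp [h]

lemma norm_delta (x : X) : ‖(delta x : HH X)‖ = 1 := by
  classical
  rw [delta, lp.norm_single (by norm_num)]
  simp

lemma orthonormal_delta : Orthonormal ℂ (delta : X → HH X) := by
  classical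
  rw [orthonormal_iff_ite]
  intro i j
  rw [inner_delta_left, delta_apply]

lemma ext_delta {E : Type*} [NormedAddCommGroup E] [NormedSpace ℂ E] {T T' : HH X →L[ℂ] E}
    (h : ∀ x, T (delta x) = T' (delta x)) : T = T' := by
  classical
  ext v
  have h1 := lp.hasSum_single (p := 2) (by norm_num) v
  have h2 := (T.hasSum h1)
  have h3 := (T'.hasSum h1)
  refine h2.unique ?_
  convert h3 using 2 with x
  have h4 : lp.single 2 x (v x) = (v x) • (delta x : HH X) := by
    rw [delta, ← lp.single_smul]
    simp
  rw [h4, map_smul, map_smul, h]

/-- the isometry of `ℓ²(X)` given by an injective map -/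
noncomputable def V (f : X → X) (hf : Function.Injective f) : HH X →L[ℂ] HH X :=
  ((orthonormal_delta.comp f hf).orthogonalFamily.linearIsometry).toContinuousLinearMap

lemma V_delta (f : X → X) (hf : Function.Injective f) (x : X) :
    V f hf (delta x) = delta (f x) := by
  classical
  have := (orthonormal_delta.comp f hf).orthogonalFamily.linearIsometry_apply_single (i := x)
    (1 : ℂ)
  simp only [LinearIsometry.toSpanSingleton_apply, one_smul, Function.comp_apply] at this
  rw [← this]
  rfl

open Classical in
lemma V_adjoint_apply (f : X → X) (hf : Function.Injective f) (v : HH X) (x : X) :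
    (star (V f hf) v) x = v (f x) := by
  rw [← inner_delta_left, ContinuousLinearMap.star_eq_adjoint,
    ContinuousLinearMap.adjoint_inner_right, V_delta, inner_delta_left]

lemma V_adjoint_delta (f : X → X) (hf : Function.Injective f) (x : X) :
    star (V f hf) (delta (f x)) = delta x := by
  classical
  ext y
  rw [V_adjoint_apply, delta_apply, delta_apply]
  simp [hf.eq_iff]

lemma V_adjoint_delta_of_notMem (f : X → X) (hf : Function.Injective f) {x : X}
    (hx : ∀ y, f y ≠ x) : star (V f hf) (delta x) = 0 := by
  classical
  ext y
  rw [V_adjoint_apply, delta_apply, if_neg (hx y)]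
  rfl

lemma V_iso (f : X → X) (hf : Function.Injective f) : star (V f hf) * V f hf = 1 := by
  apply ext_delta
  intro x
  show star (V f hf) (V f hf (delta x)) = delta x
  rw [V_delta, V_adjoint_delta]

lemma V_orth (f g : X → X) (hf : Function.Injective f) (hg : Function.Injective g)
    (h : ∀ x y, f x ≠ g y) : star (V f hf) * V g hg = 0 := by
  apply ext_delta
  intro x
  show star (V f hf) (V g hg (delta x)) = 0
  rw [V_delta, V_adjoint_delta_of_notMem f hf (fun y => h y x)]

end Basis

/-- a family of isometries with mutually orthogonal ranges -/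
structure IsCuntzFamily {K : Type*} {R : Type*} [Semiring R] [StarRing R] (s : K → R) : Prop where
  iso : ∀ k, star (s k) * s k = 1
  orth : ∀ k l, k ≠ l → star (s k) * s l = 0

section Words

variable {K : Type*} {R : Type*} [Ring R] [StarRing R]

/-- product of the isometries along a word -/
def sw (s : K → R) : List K → R
  | [] => 1
  | k :: w => s k * sw s w

@[simp] lemma sw_nil (s : K → R) : sw s [] = 1 := rfl
@[simp] lemma sw_cons (s : K → R) (k : K) (w : List K) : sw s (k :: w) = s k * sw s w := rfl

lemma sw_append (s : K → R) (v w : List K) : sw s (v ++ w) = sw s v * sw s w := by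
  induction v with
  | nil => simp
  | cons k v ih => simp [ih, mul_assoc]

variable {s : K → R} (hs : IsCuntzFamily s)
include hs

lemma star_sw_self (w : List K) : star (sw s w) * sw s w = 1 := by
  induction w with
  | nil => simp
  | cons k w ih =>
    rw [sw_cons, star_mul]
    calc star (sw s w) * star (s k) * (s k * sw s w)
        = star (sw s w) * (star (s k) * s k) * sw s w := by simp only [mul_assoc]
      _ = 1 := by rw [hs.iso, mul_one, ih]

lemma star_sw_prefix (v w : List K) : star (sw s v) * sw s (v ++ w) = sw s w := by
  rw [sw_append, ← mul_assoc, star_sw_self hs, one_mul]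

lemma star_sw_cons_ne {k l : K} (h : k ≠ l) (v w : List K) :
    star (sw s (k :: v)) * sw s (l :: w) = 0 := by
  rw [sw_cons, sw_cons, star_mul]
  calc star (sw s v) * star (s k) * (s l * sw s w)
      = star (sw s v) * (star (s k) * s l) * sw s w := by simp only [mul_assoc]
    _ = 0 := by rw [hs.orth k l h]; simp

lemma star_sw_cons_self (k : K) (v w : List K) :
    star (sw s (k :: v)) * sw s (k :: w) = star (sw s v) * sw s w := by
  rw [sw_cons, sw_cons, star_mul]
  calc star (sw s v) * star (s k) * (s k * sw s w)
      = star (sw s v) * (star (s k) * s k) * sw s w := by simp only [mul_assoc]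
    _ = _ := by rw [hs.iso, mul_one]

/-- the possible values of a product `s_v^* s_w` -/
lemma star_sw_mul_sw (v w : List K) :
    star (sw s v) * sw s w = 0 ∨ (∃ u, star (sw s v) * sw s w = sw s u) ∨
      ∃ u, star (sw s v) * sw s w = star (sw s u) := by
  induction v generalizing w with
  | nil => exact Or.inr (Or.inl ⟨w, by simp⟩)
  | cons k v ih =>
    cases w with
    | nil => exact Or.inr (Or.inr ⟨k :: v, by simp⟩)
    | cons l w =>
      by_cases h : k = l
      · subst h
        rw [star_sw_cons_self hs]
        exact ih w
      · exact Or.inl (star_sw_cons_ne hs h v w)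

omit hs in
/-- the monomials `s_v s_w^*` -/
def mon (s : K → R) (v w : List K) : R := sw s v * star (sw s w)

omit hs in
lemma mon_nil (s : K → R) : mon s [] [] = 1 := by simp [mon]

omit hs in
lemma star_mon (s : K → R) (v w : List K) : star (mon s v w) = mon s w v := by simp [mon]

lemma mon_mul_mon (v w v' w' : List K) :
    mon s v w * mon s v' w' = 0 ∨ ∃ a b, mon s v w * mon s v' w' = mon s a b := by
  have h0 : mon s v w * mon s v' w' = sw s v * (star (sw s w) * sw s v') * star (sw s w') := by
    simp only [mon, mul_assoc]
  rw [h0]
  rcases star_sw_mul_sw hs w v' with h | ⟨u, h⟩ | ⟨u, h⟩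
  · left; rw [h]; simp
  · right
    refine ⟨v ++ u, w', ?_⟩
    rw [h, mon, sw_append]
  · right
    refine ⟨v, w' ++ u, ?_⟩
    rw [h, mon, sw_append, star_mul, mul_assoc]

end Words

section Alg

variable {K : Type*} {R : Type*} [Ring R] [StarRing R] [Algebra ℂ R] [StarModule ℂ R]

/-- the span of the monomials -/
def monSpan (s : K → R) : Submodule ℂ R := Submodule.span ℂ {x | ∃ v w, x = mon s v w}

/-- the *-algebra generated by a Cuntz family: the span of the monomials -/
def alg {s : K → R} (hs : IsCuntzFamily s) : StarSubalgebra ℂ R where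
  carrier := monSpan s
  mul_mem' := by
    intro a b ha hb
    simp only [SetLike.mem_coe, monSpan] at *
    induction ha using Submodule.span_induction with
    | mem x hx =>
      obtain ⟨v, w, rfl⟩ := hx
      induction hb using Submodule.span_induction with
      | mem y hy =>
        obtain ⟨v', w', rfl⟩ := hy
        rcases mon_mul_mon hs v w v' w' with h | ⟨c, d, h⟩
        · rw [h]; exact Submodule.zero_mem _
        · rw [h]; exact Submodule.subset_span ⟨c, d, rfl⟩
      | zero => rw [mul_zero]; exact Submodule.zero_mem _
      | add x y _ _ h1 h2 => rw [mul_add]; exact Submodule.add_mem _ h1 h2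
      | smul c x _ h1 => rw [mul_smul_comm]; exact Submodule.smul_mem _ c h1
    | zero => rw [zero_mul]; exact Submodule.zero_mem _
    | add x y _ _ h1 h2 => rw [add_mul]; exact Submodule.add_mem _ h1 h2
    | smul c x _ h1 => rw [smul_mul_assoc]; exact Submodule.smul_mem _ c h1
  add_mem' := fun ha hb => Submodule.add_mem _ ha hb
  algebraMap_mem' := by
    intro r
    rw [Algebra.algebraMap_eq_smul_one, ← mon_nil s]
    exact Submodule.smul_mem _ _ (Submodule.subset_span ⟨[], [], rfl⟩)
  star_mem' := by
    intro a ha
    simp only [SetLike.mem_coe, monSpan] at *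
    induction ha using Submodule.span_induction with
    | mem x hx =>
      obtain ⟨v, w, rfl⟩ := hx
      rw [star_mon]
      exact Submodule.subset_span ⟨w, v, rfl⟩
    | zero => rw [star_zero]; exact Submodule.zero_mem _
    | add x y _ _ h1 h2 => rw [star_add]; exact Submodule.add_mem _ h1 h2
    | smul c x _ h1 => rw [star_smul]; exact Submodule.smul_mem _ _ h1

lemma mem_alg {s : K → R} (hs : IsCuntzFamily s) {x : R} : x ∈ alg hs ↔ x ∈ monSpan s := Iff.rfl

lemma mon_mem_alg {s : K → R} (hs : IsCuntzFamily s) (v w : List K) : mon s v w ∈ alg hs :=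
  Submodule.subset_span ⟨v, w, rfl⟩

lemma sw_mem_alg {s : K → R} (hs : IsCuntzFamily s) (v : List K) : sw s v ∈ alg hs := by
  have := mon_mem_alg hs v []
  simpa [mon] using this

lemma s_mem_alg {s : K → R} (hs : IsCuntzFamily s) (k : K) : s k ∈ alg hs := by
  have := sw_mem_alg hs [k]
  simpa using this

end Alg

section FockSpace

variable (K : Type u)

/-- the creation operators on the full Fock space `ℓ²(words in K)` -/
noncomputable def cr (k : K) : HH (List K) →L[ℂ] HH (List K) :=
  V (List.cons k) (List.cons_injective)

lemma cr_cuntz : IsCuntzFamily (cr K) where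
  iso k := V_iso _ _
  orth k l h := V_orth _ _ _ _ (fun x y hxy => h (by simpa using (List.cons.inj hxy).1))

variable {K}

lemma cr_delta (k : K) (w : List K) : cr K k (delta w) = delta (k :: w) := V_delta _ _ _

lemma star_cr_delta_cons (k : K) (w : List K) : star (cr K k) (delta (k :: w)) = delta w :=
  V_adjoint_delta _ _ _

lemma star_cr_delta_ne {k l : K} (h : k ≠ l) (w : List K) :
    star (cr K k) (delta (l :: w)) = 0 :=
  V_adjoint_delta_of_notMem _ _ (fun y hxy => h (List.cons.inj hxy).1)

lemma star_cr_delta_nil (k : K) : star (cr K k) (delta ([] : List K)) = 0 :=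
  V_adjoint_delta_of_notMem _ _ (fun y => List.cons_ne_nil _ _)

lemma sw_cr_nil (w : List K) : sw (cr K) w (delta []) = delta w := by
  induction w with
  | nil => simp
  | cons k w ih => rw [sw_cons, mul_apply_eq_comp, ih, cr_delta]

lemma star_sw_delta_nil {w : List K} (hw : w ≠ []) : star (sw (cr K) w) (delta []) = 0 := by
  cases w with
  | nil => exact absurd rfl hw
  | cons k w =>
    rw [sw_cons, star_mul, mul_apply_eq_comp, star_cr_delta_nil, map_zero]

lemma star_sw_delta_single {k j : K} (h : k ≠ j) (w : List K) :
    star (sw (cr K) (k :: w)) (delta [j]) = 0 := by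
  rw [sw_cons, star_mul, mul_apply_eq_comp, star_cr_delta_ne h, map_zero]

/-- The C*-algebra generated by the creation operators on the full Fock space. -/
noncomputable def O (K : Type u) : StarSubalgebra ℂ (HH (List K) →L[ℂ] HH (List K)) :=
  (alg (cr_cuntz K)).topologicalClosure

instance : IsClosed (O K : Set (HH (List K) →L[ℂ] HH (List K))) :=
  StarSubalgebra.isClosed_topologicalClosure _

noncomputable instance : CStarAlgebra (O K) := inferInstance

lemma alg_le_O : alg (cr_cuntz K) ≤ O K := StarSubalgebra.le_topologicalClosure _

end FockSpace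

end Pool.Agent.V11109.Fock
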