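import Pool.Agent.V11109.PureExt.Ext
import Pool.Agent.V11109.PureExt.Fock

/-!
# The C*-algebra generated by creation operators: simplicity and two kinds of pure states
-/

set_option autoImplicit false
set_option linter.unusedSectionVars false
set_option linter.style.haveILetI false

open scoped ComplexOrder InnerProductSpace Topology

namespace Pool.Agent.V11109.PureExt

open Pool.Agent.V11109.Fock Filter

universe u

section CS

variable {A : Type u} [CStarAlgebra A]

/-- the Cauchy-Schwarz inequality for positive functionals -/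
lemma cs {f : A →L[ℂ] ℂ} (hf : ∀ x, 0 ≤ f (star x * x)) (a b : A) :
    ‖f (star a * b)‖ ^ 2 ≤ (f (star a * a)).re * (f (star b * b)).re := by
  letI := CStarAlgebra.spectralOrder A
  haveI := CStarAlgebra.spectralOrderedRing A
  let F := toPLM f hf
  have h := norm_inner_le_norm (𝕜 := ℂ) (F.toPreGNS a) (F.toPreGNS b)
  have h1 : ⟪F.toPreGNS a, F.toPreGNS b⟫_ℂ = f (star a * b) := rfl
  have h2 : ∀ c : A, ‖F.toPreGNS c‖ ^ 2 = (f (star c * c)).re := by
    intro c
    have h3 := F.preGNS_norm_sq (F.toPreGNS c)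
    have h4 : ((‖F.toPreGNS c‖ ^ 2 : ℝ) : ℂ) = f (star c * c) := by
      push_cast
      exact h3
    rw [← h4, Complex.ofReal_re]
  rw [h1] at h
  calc ‖f (star a * b)‖ ^ 2 ≤ (‖F.toPreGNS a‖ * ‖F.toPreGNS b‖) ^ 2 := by gcongr
    _ = _ := by rw [mul_pow, h2, h2]

lemma mul_eq_zero_left {f : A →L[ℂ] ℂ} (hf : ∀ x, 0 ≤ f (star x * x)) {a : A}
    (ha : f (a * star a) = 0) (b : A) : f (a * b) = 0 := by
  have h := cs hf (star a) b
  rw [star_star, ha] at h
  have : ‖f (a * b)‖ ^ 2 ≤ 0 := by simpa using h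
  have h2 : ‖f (a * b)‖ = 0 := by nlinarith [norm_nonneg (f (a * b))]
  simpa using h2

lemma mul_eq_zero_right {f : A →L[ℂ] ℂ} (hf : ∀ x, 0 ≤ f (star x * x)) {a : A}
    (ha : f (star a * a) = 0) (b : A) : f (b * a) = 0 := by
  have h := cs hf (star b) a
  rw [star_star, ha] at h
  have : ‖f (b * a)‖ ^ 2 ≤ 0 := by simpa using h
  have h2 : ‖f (b * a)‖ = 0 := by nlinarith [norm_nonneg (f (b * a))]
  simpa using h2

/-- a state with value one at a projection is concentrated there -/
lemma eq_compress {f : A →L[ℂ] ℂ} (hf : ∀ x, 0 ≤ f (star x * x)) {q : A} (hq : star q = q)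
    (hqq : q * q = q) (h1 : f q = f 1) (x : A) : f x = f (q * x * q) := by
  have hz : f (star (1 - q) * (1 - q)) = 0 := by
    have : star (1 - q) * (1 - q) = 1 - q := by
      rw [star_sub, star_one, hq, mul_sub, sub_mul, sub_mul, hqq]; simp
    rw [this, map_sub, h1, sub_self]
  have hz' : f ((1 - q) * star (1 - q)) = 0 := by
    have : star (1 - q) = 1 - q := by rw [star_sub, star_one, hq]
    rw [this] at hz ⊢
    exact hz
  have h2 : f ((1 - q) * x) = 0 := mul_eq_zero_left hf hz' x
  have h3 : f ((q * x) * (1 - q)) = 0 := mul_eq_zero_right hf hz (q * x)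
  have h4 : (1 - q) * x + (q * x) * (1 - q) + q * x * q = x := by noncomm_ring
  calc f x = f ((1 - q) * x + (q * x) * (1 - q) + q * x * q) := by rw [h4]
    _ = f (q * x * q) := by rw [map_add, map_add, h2, h3, zero_add, zero_add]

end CS

section UL

/-- ultralimits of bounded sequences of functionals -/
lemma exists_ultralimit {A : Type u} [NormedAddCommGroup A] [NormedSpace ℂ A]
    (f : ℕ → (A →L[ℂ] ℂ)) (hf : ∀ n, ‖f n‖ ≤ 1) :
    ∃ g : A →L[ℂ] ℂ, ‖g‖ ≤ 1 ∧
      ∀ x, Tendsto (fun n => f n x) (hyperfilter ℕ : Filter ℕ) (𝓝 (g x)) := by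
  have hb : ∀ n x, ‖f n x‖ ≤ ‖x‖ := fun n x => by
    calc ‖f n x‖ ≤ ‖f n‖ * ‖x‖ := (f n).le_opNorm x
      _ ≤ 1 * ‖x‖ := by gcongr; exact hf n
      _ = ‖x‖ := one_mul _
  have hex : ∀ x, ∃ z : ℂ, ‖z‖ ≤ ‖x‖ ∧
      Tendsto (fun n => f n x) (hyperfilter ℕ : Filter ℕ) (𝓝 z) := by
    intro x
    have hc : IsCompact (Metric.closedBall (0 : ℂ) ‖x‖) := isCompact_closedBall _ _
    obtain ⟨z, hz, hlim⟩ := hc.ultrafilter_le_nhds ((hyperfilter ℕ).map (fun n => f n x)) (by
      rw [Ultrafilter.coe_map, le_principal_iff]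
      apply Filter.mem_map.mpr
      apply Filter.univ_mem'
      intro n
      simpa using hb n x)
    exact ⟨z, by simpa using hz, hlim⟩
  choose g hg hlim using hex
  let G : A →ₗ[ℂ] ℂ :=
    { toFun := g
      map_add' := fun x y => by
        refine tendsto_nhds_unique (hlim (x + y)) ?_
        simp only [map_add]
        exact (hlim x).add (hlim y)
      map_smul' := fun c x => by
        refine tendsto_nhds_unique (hlim (c • x)) ?_
        simp only [map_smul, RingHom.id_apply]
        exact (hlim x).const_smul c }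
  refine ⟨G.mkContinuous 1 (fun x => by rw [one_mul]; exact hg x),
    G.mkContinuous_norm_le (by norm_num) _, hlim⟩

end UL

section OK

variable {K : Type u}

/-- the generators -/
noncomputable def S (k : K) : O K := ⟨cr K k, alg_le_O (s_mem_alg _ k)⟩

lemma S_cuntz : IsCuntzFamily (S : K → O K) where
  iso k := Subtype.ext ((cr_cuntz K).iso k)
  orth k l h := Subtype.ext ((cr_cuntz K).orth k l h)

lemma coe_sw (w : List K) : ((sw S w : O K) : HH (List K) →L[ℂ] HH (List K)) = sw (cr K) w := by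
  induction w with
  | nil => rfl
  | cons k w ih => rw [sw_cons, sw_cons, ← ih]; rfl

lemma coe_mon (v w : List K) :
    ((mon S v w : O K) : HH (List K) →L[ℂ] HH (List K)) = mon (cr K) v w := by
  rw [mon, mon, ← coe_sw, ← coe_sw]; rfl

lemma dense_mon : Dense (monSpan (S : K → O K) : Set (O K)) := by
  intro x
  rw [closure_subtype]
  have hx : (x : HH (List K) →L[ℂ] HH (List K)) ∈ closure (alg (cr_cuntz K) : Set _) := by
    have h1 : (x : HH (List K) →L[ℂ] HH (List K)) ∈
        ((alg (cr_cuntz K)).topologicalClosure : Set _) := x.2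
    rwa [StarSubalgebra.topologicalClosure_coe] at h1
  refine closure_mono ?_ hx
  intro y hy
  have hy' : y ∈ monSpan (cr K) := hy
  clear hy
  rw [monSpan] at hy'
  induction hy' using Submodule.span_induction with
  | mem y hy =>
    obtain ⟨v, w, rfl⟩ := hy
    exact ⟨mon S v w, Submodule.subset_span ⟨v, w, rfl⟩, coe_mon v w⟩
  | zero => exact ⟨0, Submodule.zero_mem _, rfl⟩
  | add y z _ _ h1 h2 =>
    obtain ⟨a, ha, rfl⟩ := h1
    obtain ⟨b, hb, rfl⟩ := h2
    exact ⟨a + b, Submodule.add_mem _ ha hb, rfl⟩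
  | smul c y _ h1 =>
    obtain ⟨a, ha, rfl⟩ := h1
    exact ⟨c • a, Submodule.smul_mem _ c ha, rfl⟩

/-- functionals which agree on the monomials are equal -/
lemma ext_mon {f g : O K →L[ℂ] ℂ} (h : ∀ v w, f (mon S v w) = g (mon S v w)) : f = g := by
  apply ContinuousLinearMap.ext_on (s := {x : O K | ∃ v w, x = mon S v w}) dense_mon
  rintro _ ⟨v, w, rfl⟩
  exact h v w

/-- vector states -/
noncomputable def vs (ξ : HH (List K)) : O K →L[ℂ] ℂ :=
  LinearMap.mkContinuous
    { toFun := fun x => ⟪ξ, (x : HH (List K) →L[ℂ] HH (List K)) ξ⟫_ℂ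
      map_add' := fun x y => by
        show ⟪ξ, ((x : HH (List K) →L[ℂ] HH (List K)) + y) ξ⟫_ℂ = _
        rw [add_apply, inner_add_right]
      map_smul' := fun c x => by
        show ⟪ξ, (c • (x : HH (List K) →L[ℂ] HH (List K))) ξ⟫_ℂ = _
        rw [smul_apply, inner_smul_right]
        rfl } (‖ξ‖ * ‖ξ‖) (fun x => by
      calc ‖⟪ξ, (x : HH (List K) →L[ℂ] HH (List K)) ξ⟫_ℂ‖
          ≤ ‖ξ‖ * ‖(x : HH (List K) →L[ℂ] HH (List K)) ξ‖ := norm_inner_le_norm _ _
        _ ≤ ‖ξ‖ * (‖(x : HH (List K) →L[ℂ] HH (List K))‖ * ‖ξ‖) := by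
          gcongr; exact ContinuousLinearMap.le_opNorm _ _
        _ = ‖ξ‖ * ‖ξ‖ * ‖x‖ := by
          rw [show ‖(x : HH (List K) →L[ℂ] HH (List K))‖ = ‖x‖ from rfl]; ring)

lemma vs_apply (ξ : HH (List K)) (x : O K) :
    vs ξ x = ⟪ξ, (x : HH (List K) →L[ℂ] HH (List K)) ξ⟫_ℂ := rfl

lemma vs_star_mul (ξ : HH (List K)) (x y : O K) :
    vs ξ (star x * y) = ⟪(x : HH (List K) →L[ℂ] HH (List K)) ξ,
      (y : HH (List K) →L[ℂ] HH (List K)) ξ⟫_ℂ := by
  rw [vs_apply]
  show ⟪ξ, (star (x : HH (List K) →L[ℂ] HH (List K)) * y) ξ⟫_ℂ = _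
  rw [mul_apply_eq_comp, ContinuousLinearMap.star_eq_adjoint,
    ContinuousLinearMap.adjoint_inner_right]

lemma vs_pos (ξ : HH (List K)) (x : O K) : 0 ≤ vs ξ (star x * x) := by
  rw [vs_star_mul, inner_self_eq_norm_sq_to_K]
  rw [← RCLike.ofReal_pow]
  exact RCLike.ofReal_nonneg.mpr (by positivity)

lemma vs_one {ξ : HH (List K)} (hξ : ‖ξ‖ = 1) : vs ξ (1 : O K) = 1 := by
  rw [vs_apply]
  show ⟪ξ, (1 : HH (List K) →L[ℂ] HH (List K)) ξ⟫_ℂ = 1
  rw [one_apply_eq_self, inner_self_eq_norm_sq_to_K, hξ]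
  simp

instance : Nontrivial (HH (List K)) :=
  ⟨⟨delta [], 0, fun h => by
    have := norm_delta ([] : List K)
    rw [h, norm_zero] at this
    exact zero_ne_one this⟩⟩

lemma norm_one_O : ‖(1 : O K)‖ = 1 := CStarRing.norm_one

lemma vs_mem {ξ : HH (List K)} (hξ : ‖ξ‖ = 1) : vs ξ ∈ States (O K) := by
  refine ⟨vs_pos ξ, le_antisymm ?_ ?_⟩
  · have h1 : ‖vs ξ‖ ≤ ‖ξ‖ * ‖ξ‖ := LinearMap.mkContinuous_norm_le _ (by positivity) _
    rw [hξ] at h1
    linarith
  · have := (vs ξ).le_opNorm (1 : O K)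
    rw [vs_one hξ, norm_one_O, norm_one] at this
    linarith

/-- the vacuum state -/
noncomputable def vac (K : Type u) : O K →L[ℂ] ℂ := vs (delta [])

lemma vac_mem : vac K ∈ States (O K) := vs_mem (norm_delta _)

lemma vac_mon_left (k : K) (v w : List K) : vac K (mon S (k :: v) w) = 0 := by
  rw [vac, mon, ← star_star (sw S (k :: v)), vs_star_mul]
  have : ((star (sw S (k :: v)) : O K) : HH (List K) →L[ℂ] HH (List K)) (delta []) = 0 := by
    have h1 : ((star (sw S (k :: v)) : O K) : HH (List K) →L[ℂ] HH (List K))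
        = star (sw (cr K) (k :: v)) := by rw [← coe_sw]; rfl
    rw [h1]
    exact star_sw_delta_nil (List.cons_ne_nil _ _)
  rw [this, inner_zero_left]

lemma vac_mon_right (k : K) (v w : List K) : vac K (mon S v (k :: w)) = 0 := by
  have h1 := vac_mon_left k w v
  have h2 : vac K (star (mon S (k :: w) v)) = star (vac K (mon S (k :: w) v)) := by
    letI := CStarAlgebra.spectralOrder (O K)
    haveI := CStarAlgebra.spectralOrderedRing (O K)
    exact state_star vac_mem.1 _
  rw [star_mon, h1, star_zero] at h2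
  exact h2

lemma vac_one : vac K 1 = 1 := vs_one (norm_delta _)

/-- the vacuum state is the only state vanishing on the range projections -/
lemma eq_vac {g : O K →L[ℂ] ℂ} (hg : g ∈ States (O K)) (h : ∀ k, g (S k * star (S k)) = 0) :
    g = vac K := by
  letI := CStarAlgebra.spectralOrder (O K)
  haveI := CStarAlgebra.spectralOrderedRing (O K)
  apply ext_mon
  intro v w
  cases v with
  | cons k v =>
    rw [vac_mon_left, mon, sw_cons, mul_assoc]
    exact mul_eq_zero_left hg.1 (h k) _
  | nil =>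
    cases w with
    | cons k w =>
      rw [vac_mon_right, mon, sw_cons, star_mul, ← mul_assoc]
      apply mul_eq_zero_right hg.1
      rw [star_star]
      exact h k
    | nil => rw [mon_nil, vac_one, state_one hg]

lemma openSegment_re {g g₁ g₂ : O K →L[ℂ] ℂ} (h : g ∈ openSegment ℝ g₁ g₂) :
    ∃ a b : ℝ, 0 < a ∧ 0 < b ∧ a + b = 1 ∧ ∀ x, g x = a * g₁ x + b * g₂ x := by
  obtain ⟨a, b, ha, hb, hab, rfl⟩ := h
  exact ⟨a, b, ha, hb, hab, fun x => by simp⟩

lemma vac_pure : vac K ∈ PureStates (O K) := by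
  rw [PureStates, mem_extremePoints_iff_left]
  refine ⟨vac_mem, fun g₁ h₁ g₂ h₂ h => ?_⟩
  obtain ⟨a, b, ha, hb, hab, hg⟩ := openSegment_re h
  apply eq_vac h₁
  intro k
  have h0 : vac K (S k * star (S k)) = 0 := by
    have := vac_mon_left k [] [k]
    simpa [mon] using this
  have h3 := h₁.1 (star (S k))
  have h4 := h₂.1 (star (S k))
  rw [star_star] at h3 h4
  have h5 := hg (S k * star (S k))
  rw [h0] at h5
  generalize g₁ (S k * star (S k)) = z₁ at h3 h5 ⊢
  generalize g₂ (S k * star (S k)) = z₂ at h4 h5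
  have h3' := Complex.le_def.mp h3
  have h4' := Complex.le_def.mp h4
  have h6 : a * z₁.re + b * z₂.re = 0 := by
    have := congrArg Complex.re h5
    simpa using this.symm
  have h7 : z₁.re = 0 := by
    have h8 : 0 ≤ z₁.re := h3'.1
    have h9 : 0 ≤ z₂.re := h4'.1
    nlinarith [mul_nonneg ha.le h8, mul_nonneg hb.le h9]
  apply Complex.ext
  · simpa using h7
  · simpa using h3'.2.symm

lemma coe_star_sw (w : List K) :
    ((star (sw S w) : O K) : HH (List K) →L[ℂ] HH (List K)) = star (sw (cr K) w) := by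
  rw [← coe_sw]; rfl

lemma vs_single_left {j k : K} (h : k ≠ j) (v w : List K) :
    vs (delta [j]) (mon S (k :: v) w) = 0 := by
  have h0 : mon (S : K → O K) (k :: v) w = star (star (sw S (k :: v))) * star (sw S w) := by
    rw [star_star]; rfl
  rw [h0, vs_star_mul, coe_star_sw, star_sw_delta_single h, inner_zero_left]

lemma vs_single_right {j k : K} (h : k ≠ j) (w : List K) :
    vs (delta [j]) (mon S [] (k :: w)) = 0 := by
  have h0 : mon (S : K → O K) [] (k :: w) = star 1 * star (sw S (k :: w)) := by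
    rw [star_one]; rfl
  rw [h0, vs_star_mul, coe_star_sw, star_sw_delta_single h, inner_zero_right]

lemma finite_ne_mon (v w : List K) :
    {j : K | vs (delta [j]) (mon S v w) ≠ vac K (mon S v w)}.Finite := by
  cases v with
  | cons k v =>
    refine (Set.finite_singleton k).subset ?_
    intro j hj
    by_contra hne
    apply hj
    rw [vac_mon_left, vs_single_left (fun h => hne h.symm)]
  | nil =>
    cases w with
    | cons k w =>
      refine (Set.finite_singleton k).subset ?_
      intro j hj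
      by_contra hne
      apply hj
      rw [vac_mon_right, vs_single_right (fun h => hne h.symm)]
    | nil =>
      refine Set.finite_empty.subset ?_
      intro j hj
      apply hj
      rw [mon_nil, vac_one, vs_one (norm_delta _)]

lemma finite_ne {E : Type u} [AddCommGroup E] [Module ℂ E] [TopologicalSpace E]
    (f : K → (E →L[ℂ] ℂ)) (g : E →L[ℂ] ℂ) (T : Set E)
    (hT : ∀ x ∈ T, {j : K | f j x ≠ g x}.Finite) {p : E} (hp : p ∈ Submodule.span ℂ T) :
    {j : K | f j p ≠ g p}.Finite := by
  induction hp using Submodule.span_induction with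
  | mem p hp => exact hT p hp
  | zero => simp
  | add p q _ _ h1 h2 =>
    refine (h1.union h2).subset ?_
    intro j hj
    by_contra hcon
    simp only [Set.mem_union, Set.mem_ofPred_eq, not_or, not_not] at hcon
    apply hj
    rw [map_add, map_add, hcon.1, hcon.2]
  | smul c p _ h1 =>
    refine h1.subset ?_
    intro j hj
    by_contra hcon
    simp only [Set.mem_ofPred_eq, not_not] at hcon
    apply hj
    rw [map_smul, map_smul, hcon]

lemma countable_ne' {E : Type u} [NormedAddCommGroup E] [NormedSpace ℂ E]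
    (f : K → (E →L[ℂ] ℂ)) (g : E →L[ℂ] ℂ) (M : Set E) (hd : Dense M)
    (hT : ∀ x ∈ M, {j : K | f j x ≠ g x}.Finite) (x : E) :
    {j : K | f j x ≠ g x}.Countable := by
  obtain ⟨p, hp, hlim⟩ := mem_closure_iff_seq_limit.mp (hd x)
  refine (Set.countable_iUnion (fun n => (hT (p n) (hp n)).countable)).mono ?_
  intro j hj
  by_contra hcon
  simp only [Set.mem_iUnion, Set.mem_ofPred_eq, not_exists, not_not] at hcon
  apply hj
  have h1 : Tendsto (fun n => f j (p n)) atTop (𝓝 (f j x)) := ((f j).continuous.tendsto x).comp hlim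
  have h2 : Tendsto (fun n => g (p n)) atTop (𝓝 (g x)) := (g.continuous.tendsto x).comp hlim
  simp only [hcon] at h1
  exact tendsto_nhds_unique h1 h2

/-- the exceptional set is countable -/
lemma countable_ne (x : O K) : {j : K | vs (delta [j]) x ≠ vac K x}.Countable := by
  apply countable_ne' (fun j : K => vs (delta [j])) (vac K) _ dense_mon
  intro p hp
  apply finite_ne (fun j : K => vs (delta [j])) (vac K) _ _ hp
  rintro _ ⟨v, w, rfl⟩
  exact finite_ne_mon v w

/-- The vacuum state is not countably determined if the family is uncountable. -/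
theorem vac_not_cd [Uncountable K] : ¬ CountablyDetermined (vac K) := by
  rintro ⟨T, hT, hdet⟩
  have h1 : (⋃ x ∈ T, {j : K | vs (delta [j]) x ≠ vac K x}).Countable :=
    hT.biUnion fun x _ => countable_ne x
  have h2 : ∃ j : K, j ∉ ⋃ x ∈ T, {j : K | vs (delta [j]) x ≠ vac K x} := by
    by_contra hcon
    push Not at hcon
    have h3 : (Set.univ : Set K).Countable := h1.mono (fun j _ => hcon j)
    exact not_countable (Set.countable_univ_iff.mp h3)
  obtain ⟨j, hj⟩ := h2
  simp only [Set.mem_iUnion, Set.mem_ofPred_eq, not_exists, not_not] at hj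
  have h3 : vs (delta [j]) = vac K := hdet _ (vs_mem (norm_delta _)) (fun b hb => hj b hb)
  have h4 : vs (delta [j]) (S j * star (S j)) = 1 := by
    rw [show S j * star (S j) = star (star (S j)) * star (S j) by rw [star_star], vs_star_mul]
    have h5 : ((star (S j) : O K) : HH (List K) →L[ℂ] HH (List K)) (delta [j]) = delta [] :=
      star_cr_delta_cons j []
    rw [h5, inner_self_eq_norm_sq_to_K, norm_delta]
    simp
  rw [h3] at h4
  have h5 := vac_mon_left j [] [j]
  rw [show mon S [j] [j] = S j * star (S j) by simp [mon], h4] at h5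
  exact one_ne_zero h5

end OK

end Pool.Agent.V11109.PureExt
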