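import Pool.Agent.V11109.PureExt.Ext

/-!
# Countable determination and unique extensions of states
-/

set_option autoImplicit false

open scoped ComplexOrder

namespace Pool.Agent.V11109.PureExt

universe u v

variable {A : Type u} {B : Type v} [CStarAlgebra A] [NonUnitalCStarAlgebra B]

/-- restriction of a functional along a homomorphism -/
noncomputable def res (ι : A →⋆ₙₐ[ℂ] B) (g : B →L[ℂ] ℂ) : A →L[ℂ] ℂ :=
  (g.toLinearMap.comp (ι : A →ₗ[ℂ] B)).mkContinuous ‖g‖ (fun a => by
    calc ‖g (ι a)‖ ≤ ‖g‖ * ‖ι a‖ := g.le_opNorm _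
      _ ≤ ‖g‖ * ‖a‖ := by
        gcongr
        exact NonUnitalStarAlgHom.norm_apply_le ι a)

lemma res_apply (ι : A →⋆ₙₐ[ℂ] B) (g : B →L[ℂ] ℂ) (a : A) : res ι g a = g (ι a) := rfl

/-- If `f` is countably determined, then so is its unique state extension. -/
theorem cd_ext {ι : A →⋆ₙₐ[ℂ] B} {f : A →L[ℂ] ℂ} {f' : B →L[ℂ] ℂ}
    (hf : f ∈ States A) (h : IsUniqueStateExtension ι f f') (hcd : CountablyDetermined f) :
    CountablyDetermined f' := by
  letI := CStarAlgebra.spectralOrder A
  haveI := CStarAlgebra.spectralOrderedRing A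
  obtain ⟨S, hS, hdet⟩ := hcd
  refine ⟨ι '' (insert 1 S), (hS.insert 1).image _, fun g hg hgS => ?_⟩
  apply h.2 g hg
  have h1 : g (ι 1) = 1 := by
    rw [hgS _ ⟨1, Set.mem_insert _ _, rfl⟩, h.1.2, state_one hf]
  have hnt : ‖(1 : A)‖ ≤ 1 := by
    rcases subsingleton_or_nontrivial A with h | h
    · rw [Subsingleton.elim (1 : A) 0]; simp
    · rw [CStarRing.norm_one]
  have hres : res ι g ∈ States A := by
    refine ⟨fun x => ?_, le_antisymm ?_ ?_⟩
    · rw [res_apply, map_mul, map_star]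
      exact hg.1 _
    · rw [← hg.2]
      exact LinearMap.mkContinuous_norm_le _ (norm_nonneg _) _
    · have h2 := (res ι g).le_opNorm 1
      rw [res_apply, h1, norm_one] at h2
      calc (1 : ℝ) ≤ ‖res ι g‖ * ‖(1 : A)‖ := h2
        _ ≤ ‖res ι g‖ * 1 := by gcongr
        _ = _ := mul_one _
  have h3 : res ι g = f := by
    apply hdet _ hres
    intro b hb
    rw [res_apply, hgS _ ⟨b, Set.mem_insert_of_mem _ hb, rfl⟩, h.1.2]
  intro a
  rw [← res_apply, h3]

/-- If the unique state extension of `f` is countably determined, then so is `f`. -/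
theorem cd_of_cd_ext {ι : A →⋆ₙₐ[ℂ] B} (hι : Function.Injective ι) {f : A →L[ℂ] ℂ}
    {f' : B →L[ℂ] ℂ} (hf : f ∈ States A) (h : IsUniqueStateExtension ι f f')
    (hcd : CountablyDetermined f') : CountablyDetermined f := by
  letI := CStarAlgebra.spectralOrder A
  haveI := CStarAlgebra.spectralOrderedRing A
  letI := CStarAlgebra.spectralOrder B
  haveI := CStarAlgebra.spectralOrderedRing B
  obtain ⟨S, hS, hdet⟩ := hcd
  -- the values of the unique extension are given by the upper envelope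
  have hval : ∀ b, (f' b).re = N ι f b := by
    intro b
    obtain ⟨g, hg, hgf, -, hgb⟩ := exists_state_ext hι hf b
    rw [← h.2 g hg hgf, hgb]
  have hex : ∀ (b : B) (n : ℕ), ∃ a : A, IsSelfAdjoint a ∧ R (ι 1) b ≤ ι a ∧
      (f a).re < (f' b).re + 1 / (n + 1) := by
    intro b n
    apply exists_lt hι hf b
    rw [hval]
    have : (0 : ℝ) < 1 / (n + 1) := by positivity
    linarith
  choose a ha hle hlt using hex
  let T : Set A := ⋃ b ∈ S, ⋃ n : ℕ, ⋃ k : Fin 4, {a (Complex.I ^ (k : ℕ) • b) n}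
  refine ⟨T, ?_, fun g hg hgT => ?_⟩
  · refine hS.biUnion fun b _ => Set.countable_iUnion fun n => Set.countable_iUnion fun k => ?_
    exact Set.countable_singleton _
  · obtain ⟨g', hg', hgg', hN, -⟩ := exists_state_ext hι hg 0
    have key : ∀ b ∈ S, ∀ k : Fin 4,
        (g' (Complex.I ^ (k : ℕ) • b)).re ≤ (f' (Complex.I ^ (k : ℕ) • b)).re := by
      intro b hb k
      apply le_of_forall_pos_le_add
      intro ε hε
      obtain ⟨n, hn⟩ := exists_nat_one_div_lt hε
      set x := Complex.I ^ (k : ℕ) • b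
      have h1 : (g' x).re ≤ (g (a x n)).re := (hN x).trans (N_le hι hg (ha x n) (hle x n))
      have h2 : g (a x n) = f (a x n) := by
        apply hgT
        simp only [T, Set.mem_iUnion]
        exact ⟨b, hb, n, k, rfl⟩
      rw [h2] at h1
      linarith [hlt x n]
    have h3 : g' = f' := by
      apply hdet g' hg'
      intro b hb
      have k0 := key b hb 0
      have k1 := key b hb 1
      have k2 := key b hb 2
      have k3 := key b hb 3
      simp only [Fin.val_zero, pow_zero, one_smul, Fin.val_one, pow_one, map_smul, smul_eq_mul,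
        Fin.isValue, Fin.val_two, Complex.I_sq, neg_smul, map_neg, Complex.neg_re,
        show ((3 : Fin 4) : ℕ) = 3 from rfl, Complex.I_pow_three, Complex.mul_re, Complex.I_re,
        Complex.I_im, zero_mul, one_mul, zero_sub, neg_neg, Complex.neg_im] at k0 k1 k2 k3
      apply Complex.ext <;> linarith
    ext x
    rw [← hgg', h3, h.1.2]

/-- Countable determination is invariant under automorphisms. -/
theorem cd_aut {f g : B →L[ℂ] ℂ} (hg : g ∈ States B) (α : B ≃⋆ₐ[ℂ] B)
    (h : ∀ x, f x = g (α x)) (hcd : CountablyDetermined f) : CountablyDetermined g := by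
  obtain ⟨S, hS, hdet⟩ := hcd
  refine ⟨α '' S, hS.image _, fun g' hg' hgS => ?_⟩
  let α' : B →⋆ₙₐ[ℂ] B := α
  have hiso : ∀ x, ‖α x‖ = ‖x‖ := fun x => NonUnitalStarAlgHom.norm_map α' α.injective x
  let k : B →L[ℂ] ℂ := (g'.toLinearMap.comp (α' : B →ₗ[ℂ] B)).mkContinuous ‖g'‖ (fun a => by
    calc ‖g' (α a)‖ ≤ ‖g'‖ * ‖α a‖ := g'.le_opNorm _
      _ ≤ ‖g'‖ * ‖a‖ := by rw [hiso])
  have hk : ∀ x, k x = g' (α x) := fun x => rfl
  have hkS : k ∈ States B := by
    refine ⟨fun x => ?_, le_antisymm ?_ ?_⟩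
    · rw [hk, map_mul, map_star]
      exact hg'.1 _
    · rw [← hg'.2]
      exact LinearMap.mkContinuous_norm_le _ (norm_nonneg _) _
    · rw [← hg'.2]
      refine ContinuousLinearMap.opNorm_le_bound _ (norm_nonneg _) fun x => ?_
      have h1 := k.le_opNorm (α.symm x)
      rw [hk, α.apply_symm_apply, ← hiso, α.apply_symm_apply] at h1
      exact h1
  have h2 : k = f := by
    apply hdet k hkS
    intro b hb
    rw [hk, hgS _ ⟨b, hb, rfl⟩, h]
  ext x
  have h3 : k (α.symm x) = f (α.symm x) := by rw [h2]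
  rw [hk, h, α.apply_symm_apply] at h3
  exact h3

end Pool.Agent.V11109.PureExt
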