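import Mathlib

/-!
# States with a unique extension and countable determination

A state `f` on a C*-algebra is countably determined if there is a countable set `S` such that `f`
is the only state which agrees with `f` on `S`. We show that a state `f` on a unital C*-algebra `A`
with a unique state extension `f'` to a C*-algebra `B` is countably determined if and only if `f'`
is.
-/

set_option autoImplicit false
set_option linter.unusedSectionVars false

open scoped ComplexOrder Pointwise

namespace Pool.Agent.V11109.PureExt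

universe u v

/-- The states of a C*-algebra: the positive linear functionals of norm one. -/
def States (A : Type u) [NonUnitalCStarAlgebra A] : Set (A →L[ℂ] ℂ) :=
  {f | (∀ x : A, 0 ≤ f (star x * x)) ∧ ‖f‖ = 1}

/-- The pure states: the extreme points of the state space. -/
def PureStates (A : Type u) [NonUnitalCStarAlgebra A] : Set (A →L[ℂ] ℂ) :=
  Set.extremePoints ℝ (States A)

/-- `f'` is a state on `B` which extends the functional `f` along the inclusion `ι : A → B`, and
it is the only such state. -/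
def IsUniqueStateExtension {A : Type u} {B : Type v} [NonUnitalCStarAlgebra A]
    [NonUnitalCStarAlgebra B] (ι : A →⋆ₙₐ[ℂ] B) (f : A →L[ℂ] ℂ) (f' : B →L[ℂ] ℂ) : Prop :=
  (f' ∈ States B ∧ ∀ a, f' (ι a) = f a) ∧
    ∀ g ∈ States B, (∀ a, g (ι a) = f a) → g = f'

/-- A functional is countably determined if it is the only state with its values on a countable
set. -/
def CountablyDetermined {B : Type v} [NonUnitalCStarAlgebra B] (f : B →L[ℂ] ℂ) : Prop :=
  ∃ S : Set B, S.Countable ∧ ∀ g ∈ States B, (∀ b ∈ S, g b = f b) → g = f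

section Ext

variable {A : Type u} {B : Type v} [CStarAlgebra A] [NonUnitalCStarAlgebra B]
  [PartialOrder A] [StarOrderedRing A] [PartialOrder B] [StarOrderedRing B]

/-- the compressed real part -/
noncomputable def R (e x : B) : B := (1 / 2 : ℝ) • (e * x * e + star (e * x * e))

lemma R_add (e x y : B) : R e (x + y) = R e x + R e y := by
  simp only [R, mul_add, add_mul, star_add, ← smul_add]
  congr 1
  abel

lemma R_smul (e x : B) (c : ℝ) : R e (c • x) = c • R e x := by
  simp only [R, mul_smul_comm, smul_mul_assoc, star_smul, ← smul_add, smul_smul, star_trivial]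
  congr 1
  ring

lemma R_sa (e x : B) : IsSelfAdjoint (R e x) := by
  simp [R, IsSelfAdjoint, star_smul, add_comm]

lemma R_norm {e : B} (he : ‖e‖ ≤ 1) (x : B) : ‖R e x‖ ≤ ‖x‖ := by
  have h1 : ‖e * x * e‖ ≤ ‖x‖ := by
    calc ‖e * x * e‖ ≤ ‖e‖ * ‖x‖ * ‖e‖ := (norm_mul_le _ _).trans (by gcongr; exact norm_mul_le _ _)
      _ ≤ 1 * ‖x‖ * 1 := by gcongr
      _ = ‖x‖ := by ring
  calc ‖R e x‖ = 1 / 2 * ‖e * x * e + star (e * x * e)‖ := by rw [R, norm_smul]; norm_num
    _ ≤ 1 / 2 * (‖e * x * e‖ + ‖star (e * x * e)‖) := by gcongr; exact norm_add_le _ _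
    _ = ‖e * x * e‖ := by rw [norm_star]; ring
    _ ≤ ‖x‖ := h1

lemma R_conj {e : B} (he : e * e = e) (hs : star e = e) (x : B) : star e * R e x * e = R e x := by
  have h2 : e * (e * x * e) * e = e * x * e := by
    calc e * (e * x * e) * e = (e * e) * x * (e * e) := by simp only [mul_assoc]
      _ = _ := by rw [he]
  have h3 : e * star (e * x * e) * e = star (e * x * e) := by
    have := congrArg star h2
    simpa only [star_mul, hs, mul_assoc] using this
  rw [hs]
  simp only [R, mul_smul_comm, smul_mul_assoc, mul_add, add_mul, h2, h3]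

lemma R_le {e : B} (he : e * e = e) (hs : star e = e) (hn : ‖e‖ ≤ 1) (x : B) :
    R e x ≤ ‖x‖ • e := by
  have h1 : star e * R e x * e ≤ ‖R e x‖ • (star e * e) :=
    CStarAlgebra.star_left_conjugate_le_norm_smul (R_sa e x)
  rw [R_conj he hs, hs, he] at h1
  have hpos : 0 ≤ e := by
    have : 0 ≤ star e * e := star_mul_self_nonneg e
    rwa [hs, he] at this
  refine h1.trans ?_
  have := R_norm hn x
  exact smul_le_smul_of_nonneg_right this hpos

lemma neg_R_le {e : B} (he : e * e = e) (hs : star e = e) (hn : ‖e‖ ≤ 1) (x : B) :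
    -(‖x‖ • e) ≤ R e x := by
  have h := R_le he hs hn (-x)
  rw [norm_neg] at h
  have h2 : R e (-x) = - R e x := by
    have := R_smul e x (-1)
    simpa using this
  rw [h2] at h
  exact neg_le.mp h

/-- injective homomorphisms reflect positivity -/
lemma nonneg_of_map_nonneg {ι : A →⋆ₙₐ[ℂ] B} (hι : Function.Injective ι) {a : A}
    (ha : IsSelfAdjoint a) (h : 0 ≤ ι a) : 0 ≤ a := by
  set n : A := a⁻ with hn
  have hn0 : 0 ≤ n := CFC.negPart_nonneg a
  have hns : star n = n := (IsSelfAdjoint.of_nonneg hn0).star_eq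
  have hpn : a⁺ * n = 0 := CFC.posPart_mul_negPart a
  have hnp : n * a⁺ = 0 := CFC.negPart_mul_posPart a
  have hdec : a = a⁺ - n := (CFC.posPart_sub_negPart a ha).symm
  have h1 : n * a * n = -(n * n * n) := by
    calc n * a * n = n * (a⁺ - n) * n := by rw [← hdec]
      _ = n * a⁺ * n - n * n * n := by noncomm_ring
      _ = -(n * n * n) := by rw [hnp, zero_mul, zero_sub]
  have h2 : 0 ≤ ι (n * a * n) := by
    have : 0 ≤ star (ι n) * ι a * ι n := star_left_conjugate_nonneg h (ι n)
    rwa [← map_star, hns, ← map_mul, ← map_mul] at this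
  have h3 : 0 ≤ n * n * n := by
    have : 0 ≤ star n * n * n := star_left_conjugate_nonneg hn0 n
    rwa [hns] at this
  have h4 : 0 ≤ ι (n * n * n) := by
    have h5 : (n * n * n) = star (CFC.sqrt (n * n * n)) * CFC.sqrt (n * n * n) := by
      rw [(IsSelfAdjoint.of_nonneg (CFC.sqrt_nonneg _)).star_eq, CFC.sqrt_mul_sqrt_self _ h3]
    rw [h5, map_mul, map_star]
    exact star_mul_self_nonneg _
  have h6 : ι (n * n * n) = 0 := by
    apply le_antisymm _ h4
    rw [h1, map_neg] at h2
    exact neg_nonneg.mp h2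
  have h7 : n * n * n = 0 := hι (by rw [h6, map_zero])
  have h8 : n = 0 := by
    have h9 : (n * n) * star (n * n) = 0 := by
      rw [star_mul, hns]
      calc n * n * (n * n) = n * n * n * n := by noncomm_ring
        _ = 0 := by rw [h7, zero_mul]
    have h10 : n * n = 0 := CStarRing.mul_star_self_eq_zero_iff _ |>.mp h9
    have h11 : n * star n = 0 := by rw [hns, h10]
    exact CStarRing.mul_star_self_eq_zero_iff _ |>.mp h11
  rw [hdec, h8, sub_zero]
  exact CFC.posPart_nonneg a

/-- a positive continuous functional as a positive linear map -/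
noncomputable def toPLM (f : B →L[ℂ] ℂ) (hf : ∀ x, 0 ≤ f (star x * x)) : B →ₚ[ℂ] ℂ :=
  PositiveLinearMap.mk₀ f.toLinearMap (fun x hx => by
    obtain ⟨y, rfl⟩ := CStarAlgebra.nonneg_iff_eq_star_mul_self.mp hx
    exact hf y)

lemma state_star {f : B →L[ℂ] ℂ} (hf : ∀ x, 0 ≤ f (star x * x)) (x : B) :
    f (star x) = star (f x) := by
  exact map_star (toPLM f hf) x

lemma state_nonneg {f : B →L[ℂ] ℂ} (hf : ∀ x, 0 ≤ f (star x * x)) {x : B} (hx : 0 ≤ x) :
    0 ≤ (f x).re := by
  obtain ⟨y, rfl⟩ := CStarAlgebra.nonneg_iff_eq_star_mul_self.mp hx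
  exact (Complex.le_def.mp (hf y)).1

lemma state_mono {f : B →L[ℂ] ℂ} (hf : ∀ x, 0 ≤ f (star x * x)) {x y : B} (hxy : x ≤ y) :
    (f x).re ≤ (f y).re := by
  have := state_nonneg hf (sub_nonneg.mpr hxy)
  rw [map_sub, Complex.sub_re] at this
  linarith

lemma exists_rotate (z : ℂ) : ∃ c : ℂ, ‖c‖ = 1 ∧ c * z = ‖z‖ := by
  by_cases hz : z = 0
  · exact ⟨1, by simp, by simp [hz]⟩
  · refine ⟨star z / ‖z‖, ?_, ?_⟩
    · rw [norm_div, norm_star, Complex.norm_real, norm_norm, div_self (by simpa using hz)]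
    · have h1 : (‖z‖ : ℂ) ≠ 0 := by simpa using hz
      rw [div_mul_eq_mul_div, div_eq_iff h1]
      have := Complex.conj_mul' z
      rw [Complex.star_def, this]
      ring

lemma state_one {f : A →L[ℂ] ℂ} (hf : f ∈ States A) : f 1 = 1 := by
  have h0 : 0 ≤ f 1 := by simpa using hf.1 1
  have him : (f 1).im = 0 := (Complex.le_def.mp h0).2.symm
  have hre : 0 ≤ (f 1).re := (Complex.le_def.mp h0).1
  have hle : ‖f‖ ≤ (f 1).re := by
    refine ContinuousLinearMap.opNorm_le_bound _ hre fun x => ?_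
    obtain ⟨c, hc, hcx⟩ := exists_rotate (f x)
    set y : A := (1 / 2 : ℝ) • (c • x + star (c • x)) with hy
    have hysa : IsSelfAdjoint y := by
      simp [hy, IsSelfAdjoint, star_smul, add_comm]
    have hfy : (f y).re = ‖f x‖ := by
      have h1 : f y = (1 / 2 : ℝ) • (f (c • x) + star (f (c • x))) := by
        rw [hy, ← state_star hf.1, ← map_add]
        exact map_smul (f.restrictScalars ℝ) (1 / 2 : ℝ) _
      rw [h1, map_smul, smul_eq_mul, hcx]
      simp
      ring
    have hny : ‖y‖ ≤ ‖x‖ := by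
      calc ‖y‖ = 1 / 2 * ‖c • x + star (c • x)‖ := by rw [hy, norm_smul]; norm_num
        _ ≤ 1 / 2 * (‖c • x‖ + ‖star (c • x)‖) := by gcongr; exact norm_add_le _ _
        _ = ‖x‖ := by rw [norm_star, norm_smul, hc]; ring
    have h2 : (f y).re ≤ (f (algebraMap ℝ A ‖y‖)).re :=
      state_mono hf.1 hysa.le_algebraMap_norm_self
    have h3 : (f (algebraMap ℝ A ‖y‖)).re = ‖y‖ * (f 1).re := by
      rw [Algebra.algebraMap_eq_smul_one]
      have := map_smul (f.restrictScalars ℝ) ‖y‖ (1 : A)
      simp only [ContinuousLinearMap.coe_restrictScalars'] at this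
      rw [this]
      simp
    rw [hfy, h3] at h2
    calc ‖f x‖ ≤ ‖y‖ * (f 1).re := h2
      _ ≤ (f 1).re * ‖x‖ := by rw [mul_comm]; gcongr
  have hnt : Nontrivial A := by
    by_contra hcon
    rw [not_nontrivial_iff_subsingleton] at hcon
    have : f = 0 := by ext x; rw [Subsingleton.elim x 0]; simp
    have h1 := hf.2
    rw [this, norm_zero] at h1
    exact zero_ne_one h1
  have hge : (f 1).re ≤ 1 := by
    calc (f 1).re ≤ ‖f 1‖ := Complex.re_le_norm _
      _ ≤ ‖f‖ * ‖(1 : A)‖ := f.le_opNorm _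
      _ = 1 := by rw [hf.2, CStarRing.norm_one, one_mul]
  rw [hf.2] at hle
  apply Complex.ext
  · simp; linarith
  · simpa using him

/-- the values of `f` at the elements of `A` above the compression of `x` -/
def upper (ι : A →⋆ₙₐ[ℂ] B) (f : A →L[ℂ] ℂ) (x : B) : Set ℝ :=
  {r | ∃ a : A, IsSelfAdjoint a ∧ R (ι 1) x ≤ ι a ∧ r = (f a).re}

/-- the upper envelope -/
noncomputable def N (ι : A →⋆ₙₐ[ℂ] B) (f : A →L[ℂ] ℂ) (x : B) : ℝ := sInf (upper ι f x)

section

variable {ι : A →⋆ₙₐ[ℂ] B} (hι : Function.Injective ι) {f : A →L[ℂ] ℂ} (hf : f ∈ States A)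

include hι in
lemma e_norm : ‖ι 1‖ ≤ 1 := by
  rw [NonUnitalStarAlgHom.norm_map ι hι]
  rcases subsingleton_or_nontrivial A with h | h
  · rw [Subsingleton.elim (1 : A) 0]; simp
  · rw [CStarRing.norm_one]

omit [PartialOrder A] [StarOrderedRing A] [PartialOrder B] [StarOrderedRing B] in
lemma e_idem : ι 1 * ι 1 = ι 1 := by rw [← map_mul, one_mul]

omit [PartialOrder A] [StarOrderedRing A] [PartialOrder B] [StarOrderedRing B] in
lemma e_star : star (ι 1) = ι 1 := by rw [← map_star, star_one]

lemma map_real_smul_one (c : ℝ) : ι (c • (1 : A)) = c • ι 1 := by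
  have h1 : c • (1 : A) = (c : ℂ) • (1 : A) := (Complex.coe_smul c (1 : A)).symm
  rw [h1, map_smul, Complex.coe_smul]

lemma re_real_smul (f : A →L[ℂ] ℂ) (c : ℝ) (a : A) : (f (c • a)).re = c * (f a).re := by
  have := map_smul (f.restrictScalars ℝ) c a
  simp only [ContinuousLinearMap.coe_restrictScalars'] at this
  rw [this]
  simp

include hι in
lemma norm_mem_upper (hf : f ∈ States A) (x : B) : ‖x‖ ∈ upper ι f x := by
  refine ⟨‖x‖ • 1, ?_, ?_, ?_⟩
  · simp [IsSelfAdjoint, star_smul]
  · rw [map_real_smul_one]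
    exact R_le e_idem e_star (e_norm hι) x
  · rw [re_real_smul, state_one hf]
    simp

include hι in
lemma upper_bdd (hf : f ∈ States A) (x : B) : BddBelow (upper ι f x) := by
  refine ⟨-‖x‖, ?_⟩
  rintro r ⟨a, ha, hle, rfl⟩
  have h1 : -(‖x‖ • ι 1) ≤ ι a := (neg_R_le e_idem e_star (e_norm hι) x).trans hle
  have h2 : 0 ≤ ι (a + ‖x‖ • 1) := by
    rw [map_add, map_real_smul_one]
    have := add_le_add_left h1 (‖x‖ • ι 1)
    simpa [add_comm] using this
  have h3 : IsSelfAdjoint (a + ‖x‖ • (1 : A)) := by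
    apply ha.add
    simp [IsSelfAdjoint, star_smul]
  have h4 := state_nonneg hf.1 (nonneg_of_map_nonneg hι h3 h2)
  rw [map_add, Complex.add_re, re_real_smul, state_one hf] at h4
  simp at h4
  linarith

include hι in
lemma N_le (hf : f ∈ States A) {x : B} {a : A} (ha : IsSelfAdjoint a) (hle : R (ι 1) x ≤ ι a) :
    N ι f x ≤ (f a).re :=
  csInf_le (upper_bdd hι hf x) ⟨a, ha, hle, rfl⟩

include hι in
lemma N_le_norm (hf : f ∈ States A) (x : B) : N ι f x ≤ ‖x‖ :=
  csInf_le (upper_bdd hι hf x) (norm_mem_upper hι hf x)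

include hι in
lemma exists_lt (hf : f ∈ States A) (x : B) {r : ℝ} (hr : N ι f x < r) :
    ∃ a : A, IsSelfAdjoint a ∧ R (ι 1) x ≤ ι a ∧ (f a).re < r := by
  obtain ⟨_, ⟨a, ha, hle, rfl⟩, hlt⟩ := exists_lt_of_csInf_lt ⟨_, norm_mem_upper hι hf x⟩ hr
  exact ⟨a, ha, hle, hlt⟩

lemma upper_smul (c : ℝ) (hc : 0 < c) (x : B) : upper ι f (c • x) = c • upper ι f x := by
  have key : ∀ (c : ℝ), 0 < c → ∀ x : B, c • upper ι f x ⊆ upper ι f (c • x) := by
    rintro c hc x _ ⟨_, ⟨a, ha, hle, rfl⟩, rfl⟩
    refine ⟨c • a, (IsSelfAdjoint.all c).smul ha, ?_, ?_⟩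
    · rw [R_smul]
      have h1 : ι (c • a) = c • ι a := by
        rw [← Complex.coe_smul, map_smul, Complex.coe_smul]
      rw [h1]
      exact smul_le_smul_of_nonneg_left hle hc.le
    · rw [re_real_smul]; rfl
  apply Set.Subset.antisymm _ (key c hc x)
  have h2 := key c⁻¹ (inv_pos.mpr hc) (c • x)
  rw [smul_smul, inv_mul_cancel₀ hc.ne', one_smul] at h2
  intro r hr
  refine ⟨c⁻¹ • r, h2 ⟨r, hr, rfl⟩, ?_⟩
  show c • c⁻¹ • r = r
  rw [smul_smul, mul_inv_cancel₀ hc.ne', one_smul]

include hι in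
lemma N_smul (hf : f ∈ States A) (c : ℝ) (hc : 0 < c) (x : B) : N ι f (c • x) = c * N ι f x := by
  rw [N, upper_smul c hc, Real.sInf_smul_of_nonneg hc.le, smul_eq_mul, N]

include hι in
lemma N_add (hf : f ∈ States A) (x y : B) : N ι f (x + y) ≤ N ι f x + N ι f y := by
  apply le_of_forall_pos_le_add
  intro ε hε
  obtain ⟨a, ha, h1, h2⟩ := exists_lt hι hf x (show N ι f x < N ι f x + ε / 2 by linarith)
  obtain ⟨b, hb, h3, h4⟩ := exists_lt hι hf y (show N ι f y < N ι f y + ε / 2 by linarith)
  have h5 : N ι f (x + y) ≤ (f (a + b)).re := by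
    apply N_le hι hf (ha.add hb)
    rw [R_add, map_add]
    exact add_le_add h1 h3
  rw [map_add, Complex.add_re] at h5
  linarith

include hι in
lemma N_zero (hf : f ∈ States A) : N ι f 0 = 0 := by
  have := N_smul hι hf 2 (by norm_num) 0
  rw [smul_zero] at this
  linarith

include hι in
/-- Hahn-Banach extension of states, with the largest possible value at `b`. -/
theorem exists_state_ext (hf : f ∈ States A) (b : B) :
    ∃ g ∈ States B, (∀ a, g (ι a) = f a) ∧ (∀ x, (g x).re ≤ N ι f x) ∧
      (g b).re = N ι f b := by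
  have H : ∀ c : ℝ, c • b = 0 → c • N ι f b = 0 := by
    intro c hc
    rcases smul_eq_zero.mp hc with h | h
    · rw [h, zero_smul]
    · rw [h, N_zero hι hf, smul_zero]
  let f0 : B →ₗ.[ℝ] ℝ := LinearPMap.mkSpanSingleton' b (N ι f b) H
  have hf0 : ∀ x : f0.domain, f0 x ≤ N ι f x := by
    rintro ⟨x, hx⟩
    obtain ⟨c, rfl⟩ := Submodule.mem_span_singleton.mp hx
    have h1 : f0 ⟨c • b, hx⟩ = c • N ι f b := LinearPMap.mkSpanSingleton'_apply b (N ι f b) H c hx
    rw [h1, smul_eq_mul]
    rcases lt_trichotomy c 0 with hc | hc | hc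
    · have h2 := N_add hι hf ((-c) • b) (c • b)
      rw [← add_smul, neg_add_cancel, zero_smul, N_zero hι hf,
        N_smul hι hf (-c) (by linarith)] at h2
      simp only at *
      linarith
    · simp [hc, N_zero hι hf]
    · rw [N_smul hι hf c hc]
  obtain ⟨g0, hg0, hg0le⟩ := exists_extension_of_le_sublinear f0 (N ι f)
    (fun c hc x => N_smul hι hf c hc x) (N_add hι hf) hf0
  have hg0b : g0 b = N ι f b := by
    have hmem : (1 : ℝ) • b ∈ f0.domain := Submodule.mem_span_singleton.mpr ⟨1, rfl⟩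
    have h1 : f0 ⟨(1 : ℝ) • b, hmem⟩ = (1 : ℝ) • N ι f b :=
      LinearPMap.mkSpanSingleton'_apply b (N ι f b) H 1 hmem
    have h2 := hg0 ⟨(1 : ℝ) • b, hmem⟩
    rw [h1] at h2
    simpa using h2
  have hbound : ∀ x, ‖g0 x‖ ≤ 1 * ‖x‖ := by
    intro x
    rw [one_mul, Real.norm_eq_abs, abs_le]
    constructor
    · have h1 := (hg0le (-x)).trans (N_le_norm hι hf (-x))
      rw [map_neg, norm_neg] at h1
      linarith
    · exact (hg0le x).trans (N_le_norm hι hf x)
  let G0 : StrongDual ℝ B := g0.mkContinuous 1 hbound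
  have hG0 : ∀ x, G0 x = g0 x := fun x => rfl
  let G : B →L[ℂ] ℂ := StrongDual.extendRCLike G0
  have hGre : ∀ x, (G x).re = g0 x := fun x => by
    rw [← RCLike.re_eq_complex_re]
    exact StrongDual.re_extendRCLike_apply G0 x
  have hGim : ∀ x, (G x).im = - g0 (Complex.I • x) := fun x => by
    rw [← RCLike.im_eq_complex_im]
    exact StrongDual.im_extendRCLike_apply G0 x
  have hGn : ‖G‖ ≤ 1 := by
    rw [StrongDual.norm_extendRCLike]
    exact g0.mkContinuous_norm_le (by norm_num) hbound
  have hext_re : ∀ a : A, g0 (ι a) = (f a).re := by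
    have key : ∀ a : A, g0 (ι a) ≤ (f a).re := by
      intro a
      set a' : A := (1 / 2 : ℝ) • (a + star a) with ha'
      have hsa : IsSelfAdjoint a' := by simp [ha', IsSelfAdjoint, star_smul, add_comm]
      have hR : R (ι 1) (ι a) = ι a' := by
        rw [R, ← map_mul, ← map_mul, one_mul, mul_one, ← map_star, ← map_add, ha',
          ← Complex.coe_smul, ← map_smul, Complex.coe_smul]
      have h1 := (hg0le (ι a)).trans (N_le hι hf hsa hR.le)
      have h2 : (f a').re = (f a).re := by
        rw [ha', re_real_smul, map_add, state_star hf.1]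
        simp
        ring
      rwa [h2] at h1
    intro a
    apply le_antisymm (key a)
    have h1 := key (-a)
    rw [map_neg, map_neg, map_neg, Complex.neg_re] at h1
    linarith
  have hext : ∀ a : A, G (ι a) = f a := by
    intro a
    apply Complex.ext
    · rw [hGre, hext_re]
    · rw [hGim, ← map_smul, hext_re, map_smul]
      simp
  refine ⟨G, ⟨?_, ?_⟩, hext, ?_, ?_⟩
  · intro y
    have hpos : 0 ≤ star y * y := star_mul_self_nonneg y
    have hconj : 0 ≤ ι 1 * (star y * y) * ι 1 := by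
      have := star_left_conjugate_nonneg hpos (ι 1)
      rwa [e_star] at this
    have hstar : star (ι 1 * (star y * y) * ι 1) = ι 1 * (star y * y) * ι 1 :=
      (IsSelfAdjoint.of_nonneg hconj).star_eq
    have h1 : 0 ≤ g0 (star y * y) := by
      have h2 : N ι f (-(star y * y)) ≤ (f 0).re := by
        apply N_le hι hf (IsSelfAdjoint.zero _)
        rw [map_zero]
        have h3 : R (ι 1) (-(star y * y)) = -(ι 1 * (star y * y) * ι 1) := by
          rw [R, mul_neg, neg_mul, star_neg, hstar, ← two_smul ℝ, smul_smul]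
          norm_num
        rw [h3]
        exact neg_nonpos.mpr hconj
      have h4 := (hg0le _).trans h2
      rw [map_neg, map_zero, Complex.zero_re] at h4
      linarith
    have h5 : g0 (Complex.I • (star y * y)) = 0 := by
      have h6 : ∀ c : ℂ, c.re = 0 → g0 (c • (star y * y)) ≤ 0 := by
        intro c hc
        have h7 : N ι f (c • (star y * y)) ≤ (f 0).re := by
          apply N_le hι hf (IsSelfAdjoint.zero _)
          rw [map_zero]
          have h3 : R (ι 1) (c • (star y * y)) = 0 := by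
            rw [R, mul_smul_comm, smul_mul_assoc, star_smul, hstar, ← add_smul]
            have : c + star c = 0 := by
              apply Complex.ext <;> simp [hc]
            rw [this, zero_smul, smul_zero]
          rw [h3]
        have h8 := (hg0le _).trans h7
        simpa using h8
      apply le_antisymm (h6 _ (by simp))
      have := h6 (-Complex.I) (by simp)
      rw [neg_smul, map_neg] at this
      linarith
    rw [Complex.le_def]
    constructor
    · rw [hGre]; exact h1
    · rw [hGim, h5]; simp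
  · apply le_antisymm hGn
    have h1 : ‖G (ι 1)‖ ≤ ‖G‖ * ‖ι 1‖ := G.le_opNorm _
    rw [hext, state_one hf, norm_one] at h1
    calc (1 : ℝ) ≤ ‖G‖ * ‖ι 1‖ := h1
      _ ≤ ‖G‖ * 1 := by gcongr; exact e_norm hι
      _ = ‖G‖ := mul_one _
  · intro x
    rw [hGre]
    exact hg0le x
  · rw [hGre, hg0b]

end

end Ext

end Pool.Agent.V11109.PureExt
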